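import Pool.Agent.Lib.MP_19b52f_al.Dbl.Main
import Pool.Agent.Lib.MP_19b52f_al.XL.Emb
import Pool.Agent.Lib.MP_19b52f_al.XL.Main
import Pool.Agent.Lib.MP_19b52f_al.XL.Model

namespace Pool.Agent.Results.MP_19b52f_al.LabelsSevenUp

open Pool.Agent.Lib.MP_19b52f_al.EA
open Pool.Agent.Lib.MP_66609f_al.DN

/-- If every label between different generators is infinite or at least `7`, the Artin group embeds
into the mapping class group of a closed oriented surface. -/
theorem result {S : Type} [Finite S] (M : CoxeterMatrix S)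
    (h : ∀ s t, s ≠ t → M s t = 0 ∨ 7 ≤ M s t) :
    ∃ (g : ℕ) (hg : 2 ≤ g) (f : Artin M →* MCGtop g hg), Function.Injective f := by
  obtain ⟨G⟩ := Pool.Agent.Lib.MP_19b52f_al.XL.exists_GS M h
  exact Pool.Agent.Lib.MP_19b52f_al.Dbl.embeds_top
    (Pool.Agent.Lib.MP_19b52f_al.XL.embeds_of_coc G.Γ G.θ G.c
      Pool.Agent.Lib.MP_19b52f_al.XL.GS.c_mul G.c_inj)

end Pool.Agent.Results.MP_19b52f_al.LabelsSevenUp
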