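import Pool.Agent.Lib.MP_19b52f_al.Radu

/-! A Garside group with a nontrivial element killed by every homomorphism to a residually finite
group. -/

namespace Pool.Agent.Results.MP_19b52f_al.NotResiduallyFinite

open Pool.Agent.Lib.MP_19b52f_al

theorem result : IsGarsideGroup Rad ∧ ∃ g : Rad, g ≠ 1 ∧
    ∀ (H : Type*) [Group H] [Group.ResiduallyFinite H] (f : Rad →* H), f g = 1 :=
  main_result

end Pool.Agent.Results.MP_19b52f_al.NotResiduallyFinite
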