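import Pool.Agent.Lib.MP_19b52f_al.Dbl.Main

namespace Pool.Agent.Results.MP_19b52f_al.TypesABILiteral

open Pool.Agent.Lib.MP_19b52f_al.EA Pool.Agent.Lib.MP_19b52f_al.FC
open Pool.Agent.Lib.MP_66609f_al.DN

/-- If every irreducible set of generators without an infinite label has type `A`, `B` or `I₂`,
the Artin group embeds into the mapping class group of a closed oriented surface. -/
theorem result {S : Type} [Finite S] (M : CoxeterMatrix S)
    (h : ∀ T : Set S, (∀ s ∈ T, ∀ t ∈ T, M s t ≠ 0) → Irred M T →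
      (∃ n, HasType M T (CoxeterMatrix.A n)) ∨ (∃ n, HasType M T (CoxeterMatrix.B n)) ∨
        ∃ m, HasType M T (CoxeterMatrix.I m)) :
    ∃ (g : ℕ) (hg : 2 ≤ g) (f : Artin M →* MCGtop g hg), Function.Injective f :=
  Pool.Agent.Lib.MP_19b52f_al.Dbl.embeds_top (embeds h)

end Pool.Agent.Results.MP_19b52f_al.TypesABILiteral
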