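import Pool.Agent.Lib.MP_19b52f_al.EA2.Final

/-! If every triangle of finite labels has at least two labels equal to two, the Artin group
virtually embeds into a right-angled Artin group. -/

namespace Pool.Agent.Results.MP_19b52f_al.VirtuallyRAAGAllLabels

open Pool.Agent.Lib.MP_19b52f_al.EA

theorem result {S : Type} [Finite S] (M : CoxeterMatrix S)
    (hT : ∀ s t r, s ≠ t → s ≠ r → t ≠ r → M s t ≠ 0 → M s r ≠ 0 → M t r ≠ 0 →
      M s t = 2 ∨ M s r = 2) :
    ∃ (H : Subgroup (Artin M)) (k : ℕ) (R : CoxeterMatrix (Fin k)) (f : H →* Artin R),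
      H.FiniteIndex ∧ IsRightAngled R ∧ Function.Injective f :=
  (Pool.Agent.Lib.MP_19b52f_al.EA2.virtual_embedding hT).1

end Pool.Agent.Results.MP_19b52f_al.VirtuallyRAAGAllLabels
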